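import Pool.Agent.H852R2.EX.Defs
namespace RC852
open RC14 Finset
theorem SING (n q m : ℕ) (hn : 3 ≤ n) (u v : Fin m → Fin q × Bool) (i : Fin q)
    (h : #{t | (u t).1 = i} + #{t | (v t).1 = i} = 1) (y : Fin n) :
    Nat.card {x : Fin q → Alt n // ((wrd x u : Alt n) : Equiv.Perm (Fin n)) y =
      ((wrd x v : Alt n) : Equiv.Perm (Fin n)) y} * n = Fintype.card (Alt n) ^ q := by
  sorry
end RC852
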