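import Pool.Agent.H32R2.EX.NOSING
import Pool.Agent.H32R2.EX.SingStub

/-!
Project EX (MP_75608d_al), task MIX: random words move every point to an almost uniform point.
-/

namespace RC852
open RC14 Finset

namespace MIX

/-- the point to which the word `v` in `x` moves `y` -/
def pt {n q m : ℕ} (x : Fin q → Alt n) (v : Fin m → Fin q × Bool) (y : Fin n) : Fin n :=
  ((wrd x v : Alt n) : Equiv.Perm (Fin n)) y

/-- the number of words moving `y` to `z` -/
def Nx {n q : ℕ} (m : ℕ) (x : Fin q → Alt n) (y z : Fin n) : ℝ :=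
  ∑ v : Fin m → Fin q × Bool, if pt x v y = z then (1 : ℝ) else 0

/-- bad pairs of words -/
def Bad {q m : ℕ} (p : (Fin m → Fin q × Bool) × (Fin m → Fin q × Bool)) : Prop :=
  ¬ ∃ i : Fin q, #{t | (p.1 t).1 = i} + #{t | (p.2 t).1 = i} = 1

theorem sum_Nx {n q m : ℕ} (x : Fin q → Alt n) (y : Fin n) :
    ∑ z, Nx m x y z = (2 * q : ℝ) ^ m := by
  simp only [Nx]
  rw [Finset.sum_comm]
  simp [mul_comm]

theorem sum_sq_Nx {n q m : ℕ} (x : Fin q → Alt n) (y : Fin n) :
    ∑ z, Nx m x y z ^ 2 = ∑ p : (Fin m → Fin q × Bool) × (Fin m → Fin q × Bool),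
      if pt x p.1 y = pt x p.2 y then (1 : ℝ) else 0 := by
  rw [Fintype.sum_prod_type]
  simp only [Nx, sq, Finset.sum_mul_sum]
  rw [Finset.sum_comm]
  refine Finset.sum_congr rfl fun u _ => ?_
  rw [Finset.sum_comm]
  refine Finset.sum_congr rfl fun v _ => ?_
  have : ∀ z : Fin n, ((if pt x u y = z then (1 : ℝ) else 0) * if pt x v y = z then 1 else 0) =
      if pt x u y = z then (if pt x u y = pt x v y then (1 : ℝ) else 0) else 0 := by
    intro z
    by_cases h : pt x u y = z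
    · subst h
      by_cases h' : pt x v y = pt x u y
      · simp [h']
      · have h'' : ¬ pt x u y = pt x v y := fun h => h' h.symm
        simp [h', h'']
    · simp [h]
  rw [Finset.sum_congr rfl fun z _ => this z]
  simp

theorem variance {n q m : ℕ} (hn : 0 < n) (x : Fin q → Alt n) (y : Fin n) :
    ∑ z, Nx m x y z ^ 2 - ((2 * q : ℝ) ^ m) ^ 2 / n =
      ∑ z, (Nx m x y z - (2 * q : ℝ) ^ m / n) ^ 2 := by
  have hn' : (n : ℝ) ≠ 0 := by positivity
  have h1 : ∑ z, (Nx m x y z - (2 * q : ℝ) ^ m / n) ^ 2 =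
      ∑ z, Nx m x y z ^ 2 - 2 * ((2 * q : ℝ) ^ m / n) * ∑ z, Nx m x y z +
        n * ((2 * q : ℝ) ^ m / n) ^ 2 := by
    simp only [sub_sq, Finset.sum_add_distrib, Finset.sum_sub_distrib, Finset.mul_sum]
    congr 1
    · congr 1
      refine Finset.sum_congr rfl fun z _ => ?_
      ring
    · simp
  rw [h1, sum_Nx]
  field_simp
  ring

theorem var_nonneg {n q m : ℕ} (hn : 0 < n) (x : Fin q → Alt n) (y : Fin n) :
    0 ≤ ∑ z, Nx m x y z ^ 2 - ((2 * q : ℝ) ^ m) ^ 2 / n := by
  rw [variance hn]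
  exact Finset.sum_nonneg fun z _ => sq_nonneg _

theorem var_notMix {n q m : ℕ} (hn : 0 < n) (x : Fin q → Alt n)
    (h : ¬ Mix (fun v : Fin m → Fin q × Bool => ((wrd x v : Alt n) : Equiv.Perm (Fin n)))) :
    ((2 * q : ℝ) ^ m / n) ^ 2 ≤ ∑ y, (∑ z, Nx m x y z ^ 2 - ((2 * q : ℝ) ^ m) ^ 2 / n) := by
  simp only [Mix, not_forall, not_le] at h
  obtain ⟨y, z, hyz⟩ := h
  have hcard : (Fintype.card (Fin m → Fin q × Bool) : ℝ) = (2 * q : ℝ) ^ m := by
    simp [mul_comm]
  have hN : Nx m x y z = (#{k : Fin m → Fin q × Bool |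
      ((wrd x k : Alt n) : Equiv.Perm (Fin n)) y = z} : ℝ) := by
    rw [Nx, Finset.sum_boole]
    rfl
  rw [hcard, ← hN] at hyz
  have hpos : 0 ≤ (2 * q : ℝ) ^ m / n := by positivity
  calc ((2 * q : ℝ) ^ m / n) ^ 2 ≤ (Nx m x y z - (2 * q : ℝ) ^ m / n) ^ 2 := by
        apply pow_le_pow_left₀ hpos
        have : 2 / (n : ℝ) * (2 * q : ℝ) ^ m = 2 * ((2 * q : ℝ) ^ m / n) := by ring
        rw [this] at hyz
        linarith
    _ ≤ ∑ z, (Nx m x y z - (2 * q : ℝ) ^ m / n) ^ 2 :=
        Finset.single_le_sum (f := fun z => (Nx m x y z - (2 * q : ℝ) ^ m / n) ^ 2)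
          (fun z _ => sq_nonneg _) (mem_univ z)
    _ = ∑ z, Nx m x y z ^ 2 - ((2 * q : ℝ) ^ m) ^ 2 / n := (variance hn x y).symm
    _ ≤ _ := Finset.single_le_sum
          (f := fun y => ∑ z, Nx m x y z ^ 2 - ((2 * q : ℝ) ^ m) ^ 2 / n)
          (fun y _ => var_nonneg hn x y) (mem_univ y)

theorem bad_card (q m : ℕ) (hq : 1 ≤ q) :
    (Nat.card {p : (Fin m → Fin q × Bool) × (Fin m → Fin q × Bool) // Bad p} : ℝ) ≤
      (m : ℝ) ^ (2 * m) / (q : ℝ) ^ m * (2 * q : ℝ) ^ (2 * m) := by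
  refine le_trans ?_ (RC852.NOSING q m hq)
  have key : ∀ (p : (Fin m → Fin q × Bool) × (Fin m → Fin q × Bool)), Bad p →
      ∀ t : Fin (2 * m), ∃ s, s ≠ t ∧
        (Fin.append p.1 p.2 (Fin.cast (two_mul m) s)).1 =
          (Fin.append p.1 p.2 (Fin.cast (two_mul m) t)).1 := by
    intro p hp t
    by_contra hcon
    push Not at hcon
    apply hp
    refine ⟨(Fin.append p.1 p.2 (Fin.cast (two_mul m) t)).1, ?_⟩
    set i := (Fin.append p.1 p.2 (Fin.cast (two_mul m) t)).1 with hi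
    have h1 : #{t | (p.1 t).1 = i} + #{t | (p.2 t).1 = i} =
        #{s : Fin (m + m) | (Fin.append p.1 p.2 s).1 = i} := by
      simp only [Finset.card_filter]
      rw [Fin.sum_univ_add]
      simp only [Fin.append_left, Fin.append_right]
    rw [h1, Finset.card_eq_one]
    refine ⟨Fin.cast (two_mul m) t, ?_⟩
    ext s
    simp only [mem_filter, mem_univ, true_and, mem_singleton]
    constructor
    · intro hs
      by_contra hne
      have := hcon (Fin.cast (two_mul m).symm s) (by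
        intro h
        apply hne
        rw [← h]
        simp)
      apply this
      simpa using hs
    · rintro rfl
      rfl
  have hinj : Nat.card {p : (Fin m → Fin q × Bool) × (Fin m → Fin q × Bool) // Bad p} ≤
      Nat.card {v : Fin (2 * m) → Fin q × Bool // ∀ t, ∃ s, s ≠ t ∧ (v s).1 = (v t).1} := by
    refine Nat.card_le_card_of_injective
      (fun p => (⟨fun t => Fin.append p.1.1 p.1.2 (Fin.cast (two_mul m) t), key p.1 p.2⟩ :
        {v : Fin (2 * m) → Fin q × Bool // ∀ t, ∃ s, s ≠ t ∧ (v s).1 = (v t).1})) ?_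
    rintro ⟨⟨u, v⟩, h⟩ ⟨⟨u', v'⟩, h'⟩ he
    have he' : (fun t : Fin (2 * m) => Fin.append u v (Fin.cast (two_mul m) t)) =
        fun t => Fin.append u' v' (Fin.cast (two_mul m) t) := congrArg Subtype.val he
    have he2 : Fin.append u v = Fin.append u' v' := by
      funext s
      have := congrFun he' (Fin.cast (two_mul m).symm s)
      simpa using this
    have hu : u = u' := by
      funext t
      have := congrFun he2 (Fin.castAdd m t)
      simpa only [Fin.append_left] using this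
    have hv : v = v' := by
      funext t
      have := congrFun he2 (Fin.natAdd m t)
      simpa only [Fin.append_right] using this
    subst hu; subst hv; rfl
  exact_mod_cast hinj

open Classical in
theorem total {n q m : ℕ} (hn : 3 ≤ n) :
    ∑ x : Fin q → Alt n, ∑ y, ∑ z, Nx m x y z ^ 2 ≤
      ((2 * q : ℝ) ^ m) ^ 2 * (Fintype.card (Alt n) : ℝ) ^ q +
      (Nat.card {p : (Fin m → Fin q × Bool) × (Fin m → Fin q × Bool) // Bad p} : ℝ) *
        (n * (Fintype.card (Alt n) : ℝ) ^ q) := by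
  have hn' : (0 : ℝ) < n := by positivity
  have e1 : ∑ x : Fin q → Alt n, ∑ y, ∑ z, Nx m x y z ^ 2 =
      ∑ p : (Fin m → Fin q × Bool) × (Fin m → Fin q × Bool), ∑ y : Fin n,
        ∑ x : Fin q → Alt n, if pt x p.1 y = pt x p.2 y then (1 : ℝ) else 0 := by
    simp only [sum_sq_Nx]
    rw [Finset.sum_comm]
    rw [Finset.sum_comm (s := univ (α := (Fin m → Fin q × Bool) × (Fin m → Fin q × Bool)))]
    refine Finset.sum_congr rfl fun y _ => ?_
    rw [Finset.sum_comm]
  have e2 : ∀ p : (Fin m → Fin q × Bool) × (Fin m → Fin q × Bool), ∑ y : Fin n,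
        ∑ x : Fin q → Alt n, (if pt x p.1 y = pt x p.2 y then (1 : ℝ) else 0) ≤
      (Fintype.card (Alt n) : ℝ) ^ q +
        if Bad p then (n * (Fintype.card (Alt n) : ℝ) ^ q : ℝ) else 0 := by
    intro p
    by_cases hp : Bad p
    · rw [if_pos hp]
      have : ∀ y : Fin n, ∑ x : Fin q → Alt n,
          (if pt x p.1 y = pt x p.2 y then (1 : ℝ) else 0) ≤ (Fintype.card (Alt n) : ℝ) ^ q := by
        intro y
        calc _ ≤ ∑ x : Fin q → Alt n, (1 : ℝ) :=
              Finset.sum_le_sum fun x _ => by split_ifs <;> norm_num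
          _ = _ := by simp
      calc _ ≤ ∑ y : Fin n, (Fintype.card (Alt n) : ℝ) ^ q := Finset.sum_le_sum fun y _ => this y
        _ = n * (Fintype.card (Alt n) : ℝ) ^ q := by simp
        _ ≤ _ := by
          have : (0 : ℝ) ≤ (Fintype.card (Alt n) : ℝ) ^ q := by positivity
          linarith
    · rw [if_neg hp, add_zero]
      rw [Bad, not_not] at hp
      obtain ⟨i, hi⟩ := hp
      have : ∀ y : Fin n, ∑ x : Fin q → Alt n,
          (if pt x p.1 y = pt x p.2 y then (1 : ℝ) else 0) =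
            (Fintype.card (Alt n) : ℝ) ^ q / n := by
        intro y
        have h := RC852.SING n q m hn p.1 p.2 i hi y
        rw [Nat.card_eq_fintype_card, Fintype.card_subtype] at h
        have h' : ((#{x : Fin q → Alt n | pt x p.1 y = pt x p.2 y} : ℕ) : ℝ) * n =
            (Fintype.card (Alt n) : ℝ) ^ q := by
          exact_mod_cast h
        rw [eq_div_iff hn'.ne', ← h', Finset.sum_boole]
      rw [Finset.sum_congr rfl fun y _ => this y]
      simp only [Finset.sum_const, card_univ, Fintype.card_fin, nsmul_eq_mul]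
      rw [mul_div_cancel₀ _ hn'.ne']
  rw [e1]
  refine (Finset.sum_le_sum fun p _ => e2 p).trans (le_of_eq ?_)
  rw [Finset.sum_add_distrib, ← Finset.sum_filter, Finset.sum_const, Finset.sum_const,
    nsmul_eq_mul, nsmul_eq_mul]
  congr 1
  · congr 1
    simp only [card_univ, Fintype.card_prod, Fintype.card_pi, Fintype.card_fin, Fintype.card_bool,
      Finset.prod_const]
    push_cast
    ring
  · congr 1
    rw [Nat.card_eq_fintype_card, Fintype.card_subtype]

end MIX

open Classical in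
/-- random words of length `m` move every point to an almost uniform point -/
theorem MIX (n q m : ℕ) (hn : 3 ≤ n) (hq : 1 ≤ q) :
    (Nat.card {x : Fin q → Alt n //
        ¬ Mix (fun v : Fin m → Fin q × Bool => ((wrd x v : Alt n) : Equiv.Perm (Fin n)))} : ℝ) ≤
      (n : ℝ) ^ 3 * (m : ℝ) ^ (2 * m) / (q : ℝ) ^ m * (Fintype.card (Alt n) : ℝ) ^ q := by
  have hn0 : 0 < n := by omega
  have hn' : (0 : ℝ) < n := by positivity
  have hq' : (0 : ℝ) < q := by positivity
  set M : ℝ := (2 * q : ℝ) ^ m with hM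
  have hMpos : 0 < M := by positivity
  set C : ℝ := (Fintype.card (Alt n) : ℝ) ^ q with hC
  set B : ℝ := (Nat.card {p : (Fin m → Fin q × Bool) × (Fin m → Fin q × Bool) // MIX.Bad p} : ℝ)
    with hB
  have hbad : B ≤ (m : ℝ) ^ (2 * m) / (q : ℝ) ^ m * (2 * q : ℝ) ^ (2 * m) := MIX.bad_card q m hq
  have htot := MIX.total (n := n) (q := q) (m := m) hn
  have h1 : ∑ x : Fin q → Alt n, ∑ y, (∑ z, MIX.Nx m x y z ^ 2 - M ^ 2 / n) ≤ B * (n * C) := by
    have e : ∑ x : Fin q → Alt n, ∑ y, (∑ z, MIX.Nx m x y z ^ 2 - M ^ 2 / n) =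
        ∑ x : Fin q → Alt n, ∑ y, ∑ z, MIX.Nx m x y z ^ 2 - C * M ^ 2 := by
      simp only [Finset.sum_sub_distrib]
      congr 1
      simp only [Finset.sum_const, card_univ, Fintype.card_fin, nsmul_eq_mul, Fintype.card_pi,
        Finset.prod_const]
      rw [mul_div_cancel₀ _ hn'.ne']
      push_cast
      rfl
    rw [e]
    linarith [mul_comm C (M ^ 2)]
  have h2 : (Nat.card {x : Fin q → Alt n //
        ¬ Mix (fun v : Fin m → Fin q × Bool => ((wrd x v : Alt n) : Equiv.Perm (Fin n)))} : ℝ) *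
      (M / n) ^ 2 ≤ ∑ x : Fin q → Alt n, ∑ y, (∑ z, MIX.Nx m x y z ^ 2 - M ^ 2 / n) := by
    rw [Nat.card_eq_fintype_card, Fintype.card_subtype, ← nsmul_eq_mul, ← Finset.sum_const,
      Finset.sum_filter]
    refine Finset.sum_le_sum fun x _ => ?_
    by_cases h : Mix (fun v : Fin m → Fin q × Bool => ((wrd x v : Alt n) : Equiv.Perm (Fin n)))
    · rw [if_neg (not_not.mpr h)]
      exact Finset.sum_nonneg fun y _ => MIX.var_nonneg (m := m) hn0 x y
    · rw [if_pos h]
      exact MIX.var_notMix hn0 x h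
  have hCnn : 0 ≤ C := by positivity
  have h3 : (Nat.card {x : Fin q → Alt n //
        ¬ Mix (fun v : Fin m → Fin q × Bool => ((wrd x v : Alt n) : Equiv.Perm (Fin n)))} : ℝ) *
      (M / n) ^ 2 ≤ ((m : ℝ) ^ (2 * m) / (q : ℝ) ^ m * (2 * q : ℝ) ^ (2 * m)) * (n * C) :=
    (h2.trans h1).trans (mul_le_mul_of_nonneg_right hbad (by positivity))
  have hM2 : (2 * q : ℝ) ^ (2 * m) = M ^ 2 := by
    rw [hM, ← pow_mul, mul_comm 2 m]
  rw [hM2] at h3
  have hpos : (0 : ℝ) < (M / n) ^ 2 := by positivity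
  rw [← mul_le_mul_iff_left₀ hpos]
  refine h3.trans (le_of_eq ?_)
  field_simp

end RC852
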