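import Pool.Agent.H852R2.EX.Defs

/-!
Project EX (MP_75608d_al), task NOSING: few words in which every index which occurs, occurs at
least twice.
-/

namespace RC852
open RC14 Finset

namespace NOSING

/-- the parametrisation of words with at most `N` different indices -/
def Phi (q N : ℕ) (a : (Fin N → Fin q) × (Fin (2 * N) → Fin N) × (Fin (2 * N) → Bool)) :
    Fin (2 * N) → Fin q × Bool := fun t => (a.1 (a.2.1 t), a.2.2 t)

theorem card_image_le (q N : ℕ) (v : Fin (2 * N) → Fin q × Bool)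
    (hv : ∀ t, ∃ s, s ≠ t ∧ (v s).1 = (v t).1) :
    (univ.image fun t => (v t).1).card ≤ N := by
  have h : (univ.image fun t => (v t).1).card * 2 ≤ (univ : Finset (Fin (2 * N))).card := by
    rw [Finset.card_eq_sum_card_image (fun t => (v t).1) univ]
    rw [← smul_eq_mul]
    refine Finset.card_nsmul_le_sum _ _ _ ?_
    intro i hi
    rw [Finset.mem_image] at hi
    obtain ⟨t, _, rfl⟩ := hi
    obtain ⟨s, hs, hst⟩ := hv t
    have : ({s, t} : Finset (Fin (2 * N))) ⊆
        (univ : Finset (Fin (2 * N))).filter (fun a => (v a).1 = (v t).1) := by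
      intro a ha
      simp only [mem_insert, mem_singleton] at ha
      rcases ha with rfl | rfl <;> simp [hst]
    calc 2 = ({s, t} : Finset (Fin (2 * N))).card := (Finset.card_pair hs).symm
      _ ≤ _ := Finset.card_le_card this
  rw [Finset.card_univ, Fintype.card_fin] at h
  omega

theorem mem_range (q N : ℕ) (v : Fin (2 * N) → Fin q × Bool)
    (hv : ∀ t, ∃ s, s ≠ t ∧ (v s).1 = (v t).1) : v ∈ Set.range (Phi q N) := by
  classical
  rcases Nat.eq_zero_or_pos N with rfl | hN
  · exact ⟨(fun i => i.elim0, fun i => i.elim0, fun i => i.elim0), funext fun i => i.elim0⟩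
  set S := univ.image fun t => (v t).1 with hS
  have hc := card_image_le q N v hv
  have hne : Nonempty (S ↪ Fin N) := by
    apply Function.Embedding.nonempty_of_card_le
    rw [Fintype.card_coe, Fintype.card_fin]
    exact hc
  obtain ⟨e⟩ := hne
  have hmem : ∀ t, (v t).1 ∈ S := fun t => Finset.mem_image_of_mem _ (mem_univ t)
  have i0 : Fin (2 * N) := ⟨0, by omega⟩
  refine ⟨(fun i => if h : ∃ s : S, e s = i then (h.choose : Fin q) else (v i0).1,
    fun t => e ⟨(v t).1, hmem t⟩, fun t => (v t).2), ?_⟩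
  funext t
  have h : ∃ s : S, e s = e ⟨(v t).1, hmem t⟩ := ⟨_, rfl⟩
  have h2 : h.choose = ⟨(v t).1, hmem t⟩ := e.injective h.choose_spec
  simp only [Phi]
  rw [dif_pos h, h2]

end NOSING

/-- words in which every index which occurs, occurs at least twice -/
theorem NOSING (q N : ℕ) (hq : 1 ≤ q) :
    (Nat.card {v : Fin (2 * N) → Fin q × Bool // ∀ t, ∃ s, s ≠ t ∧ (v s).1 = (v t).1} : ℝ) ≤
      (N : ℝ) ^ (2 * N) / (q : ℝ) ^ N * (2 * q : ℝ) ^ (2 * N) := by
  classical
  have h1 : Nat.card {v : Fin (2 * N) → Fin q × Bool // ∀ t, ∃ s, s ≠ t ∧ (v s).1 = (v t).1} ≤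
      Nat.card (Set.range (NOSING.Phi q N)) :=
    Nat.card_le_card_of_injective
      (fun v => (⟨v.1, NOSING.mem_range q N v.1 v.2⟩ : Set.range (NOSING.Phi q N)))
      (by
        intro a b h
        exact Subtype.ext (congrArg (fun z : Set.range (NOSING.Phi q N) => z.1) h))
  have h2 : Nat.card (Set.range (NOSING.Phi q N)) ≤
      Nat.card ((Fin N → Fin q) × (Fin (2 * N) → Fin N) × (Fin (2 * N) → Bool)) :=
    Nat.card_le_card_of_surjective
      (fun a => (⟨NOSING.Phi q N a, a, rfl⟩ : Set.range (NOSING.Phi q N)))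
      (by rintro ⟨_, a, rfl⟩; exact ⟨a, rfl⟩)
  have h3 : Nat.card ((Fin N → Fin q) × (Fin (2 * N) → Fin N) × (Fin (2 * N) → Bool)) =
      q ^ N * (N ^ (2 * N) * 2 ^ (2 * N)) := by
    simp [Nat.card_eq_fintype_card]
  have h4 : ((q ^ N * (N ^ (2 * N) * 2 ^ (2 * N)) : ℕ) : ℝ) =
      (N : ℝ) ^ (2 * N) / (q : ℝ) ^ N * (2 * q : ℝ) ^ (2 * N) := by
    have hq' : (q : ℝ) ^ N ≠ 0 := pow_ne_zero _ (by positivity)
    push_cast
    rw [mul_pow, div_mul_eq_mul_div, eq_div_iff hq', two_mul N, pow_add (q : ℝ) N N]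
    ring
  rw [← h4, ← h3]
  exact_mod_cast h1.trans h2

end RC852
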